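import Mathlib

namespace Pool.Agent.Results.MP_916daf_an.NoWeight

open NormedSpace

/-- the rank-one operator given by the all-ones matrix -/
noncomputable def J : EuclideanSpace ℂ (Fin 3) →L[ℂ] EuclideanSpace ℂ (Fin 3) :=
  LinearMap.toContinuousLinearMap
    { toFun := fun u => WithLp.toLp 2 fun _ => u 0 + u 1 + u 2
      map_add' := fun u v => by ext i; simp; ring
      map_smul' := fun c u => by ext i; simp; ring }

lemma J_apply (u : EuclideanSpace ℂ (Fin 3)) (i : Fin 3) : J u i = u 0 + u 1 + u 2 := rfl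

lemma J_pow (n : ℕ) : J ^ (n + 1) = (3 : ℂ) ^ n • J := by
  induction n with
  | zero => simp
  | succ n ih =>
    rw [pow_succ, ih, smul_mul_assoc, pow_succ, mul_smul]
    congr 1
    ext u i
    simp only [mul_apply_eq_comp, smul_apply, PiLp.smul_apply, J_apply, smul_eq_mul]
    ring

lemma exp_J (c : ℂ) : exp (c • J) = 1 + ((Complex.exp (3 * c) - 1) / 3) • J := by
  have h1 := exp_series_hasSum_exp' (𝕂 := ℂ) (c • J)
  have h2 := exp_series_hasSum_exp' (𝕂 := ℂ) (3 * c)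
  rw [← Complex.exp_eq_exp_ℂ] at h2
  have h3 := ((hasSum_nat_add_iff' 1).2 h2).div_const 3 |>.smul_const J
  have h4 := (hasSum_nat_add_iff' 1).2 h1
  have e : (fun n : ℕ => (((n + 1).factorial : ℂ)⁻¹) • (c • J) ^ (n + 1)) =
      fun n : ℕ => (((((n + 1).factorial : ℂ)⁻¹) • (3 * c) ^ (n + 1)) / 3) • J := by
    funext n
    rw [smul_pow, J_pow, smul_smul, smul_smul]
    congr 1
    rw [smul_eq_mul, mul_pow, pow_succ (3 : ℂ)]
    ring
  rw [e] at h4
  have := h4.unique h3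
  simp only [Finset.range_one, Finset.sum_singleton, Nat.factorial_zero, Nat.cast_one, inv_one,
    pow_zero, one_smul] at this
  rw [← this]
  abel

lemma T_apply (t : ℝ) (f : EuclideanSpace ℂ (Fin 3)) (i : Fin 3) :
    exp ((-(t : ℂ)) • J) f i = f i - (((1 - Real.exp (-(3 * t))) / 3 : ℝ) : ℂ) * (f 0 + f 1 + f 2) := by
  rw [exp_J]
  simp only [add_apply, smul_apply, PiLp.add_apply, PiLp.smul_apply, J_apply, smul_eq_mul,
    one_apply_eq_self]
  push_cast
  rw [show (3 : ℂ) * -(t : ℂ) = -(3 * t) by ring]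
  ring

/-- the Euclidean space of functions on three points -/
abbrev E3 : Type := EuclideanSpace ℂ (Fin 3)

/-- the form `a(u,u)` takes values in a sector of angle below `π/2` -/
def Sectorial (A : E3 →L[ℂ] E3) : Prop :=
  ∃ θ : ℝ, 0 ≤ θ ∧ θ < Real.pi / 2 ∧ ∀ u,
    (inner ℂ u (A u) : ℂ) = 0 ∨ |Complex.arg (inner ℂ u (A u))| ≤ θ

/-- the semigroup generated by `-A` -/
noncomputable def T (A : E3 →L[ℂ] E3) (t : ℝ) : E3 →L[ℂ] E3 := exp ((-(t : ℂ)) • A)

/-- the weighted sup norm -/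
noncomputable def wnorm (g : Fin 3 → ℝ) (f : E3) : ℝ := ‖fun i => (g i : ℂ) * f i‖

theorem result :
    ∃ A : E3 →L[ℂ] E3, Sectorial A ∧
      (∃ M : ℝ, 1 ≤ M ∧ ∀ t : ℝ, 0 ≤ t → ∀ f : E3, wnorm 1 (T A t f) ≤ M * wnorm 1 f) ∧
      ∀ g : Fin 3 → ℝ, (∀ i, 0 < g i) → ∀ t : ℝ, 0 < t → ∃ f : E3,
        wnorm g f < wnorm g (T A t f) := by
  simp only [Sectorial, T, wnorm, Pi.one_apply, Complex.ofReal_one, one_mul]
  refine ⟨J, ⟨0, le_rfl, by positivity, fun u => Or.inr ?_⟩, ⟨2, by norm_num, fun t ht f => ?_⟩,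
    fun g hg t ht => ?_⟩
  · have : (inner ℂ u (J u) : ℂ) = ((Complex.normSq (u 0 + u 1 + u 2) : ℝ) : ℂ) := by
      rw [← Complex.mul_conj, PiLp.inner_apply, Fin.sum_univ_three]
      simp only [J_apply, RCLike.inner_apply, map_add]
      ring
    rw [this, Complex.arg_ofReal_of_nonneg (Complex.normSq_nonneg _), abs_zero]
  · rw [pi_norm_le_iff_of_nonneg (by positivity)]
    intro i
    rw [T_apply]
    have h : ∀ j, ‖f j‖ ≤ ‖fun i => f i‖ := fun j => norm_le_pi_norm (fun i => f i) j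
    have e1 : Real.exp (-(3 * t)) ≤ 1 := Real.exp_le_one_iff.2 (by linarith)
    have e2 := Real.exp_pos (-(3 * t))
    refine (norm_sub_le _ _).trans ?_
    rw [norm_mul, Complex.norm_real, Real.norm_eq_abs, abs_of_nonneg (by linarith)]
    have h3 : ‖f 0 + f 1 + f 2‖ ≤ 3 * ‖fun i => f i‖ := by
      linarith [norm_add₃_le (a := f 0) (b := f 1) (c := f 2), h 0, h 1, h 2]
    nlinarith [h i, norm_nonneg (f 0 + f 1 + f 2)]
  · obtain ⟨k, hk⟩ := Finite.exists_max g
    have e1 : Real.exp (-(3 * t)) < 1 := Real.exp_lt_one_iff.2 (by linarith)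
    obtain ⟨s, hs⟩ : ∃ s : ℝ, s = (1 - Real.exp (-(3 * t))) / 3 := ⟨_, rfl⟩
    have hs0 : 0 < s := by rw [hs]; linarith
    let r : Fin 3 → ℝ := fun i => if i = k then (g i)⁻¹ else -(g i)⁻¹
    refine ⟨WithLp.toLp 2 fun i => (r i : ℂ), lt_of_le_of_lt (b := 1) ?_ (lt_of_lt_of_le ?_
      (norm_le_pi_norm _ k))⟩
    · rw [pi_norm_le_iff_of_nonneg zero_le_one]
      intro i
      have := (hg i).ne'
      rw [← Complex.ofReal_mul, Complex.norm_real, Real.norm_eq_abs]
      simp only [r]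
      split_ifs <;> simp [this]
    · rw [T_apply, ← hs]
      simp only
      rw [← Complex.ofReal_add, ← Complex.ofReal_add, ← Complex.ofReal_mul, ← Complex.ofReal_sub,
        ← Complex.ofReal_mul, Complex.norm_real, Real.norm_eq_abs]
      refine lt_of_lt_of_le ?_ (le_abs_self _)
      have hi : ∀ i, (g k)⁻¹ ≤ (g i)⁻¹ := fun i => inv_anti₀ (hg i) (hk i)
      have hp : 0 < (g k)⁻¹ := inv_pos.2 (hg k)
      have hsum : r 0 + r 1 + r 2 < 0 := by
        have a0 := hi 0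
        have a1 := hi 1
        have a2 := hi 2
        fin_cases k <;> simp [r] at * <;> linarith [inv_pos.2 hp]
      have : r k = (g k)⁻¹ := by simp [r]
      rw [this, mul_sub, mul_inv_cancel₀ (hg k).ne']
      nlinarith [mul_pos (hg k) (mul_pos hs0 (neg_pos.2 hsum))]

end Pool.Agent.Results.MP_916daf_an.NoWeight
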